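import Pool.Agent.H.MP_2a55c9_gt.B

namespace Pool.Agent.Results.MP_2a55c9_gt.TwoFans

/-- The homeomorphism group of `X` has exactly six orbits on `X`. -/
def SixOrbits (X : Type) [TopologicalSpace X] : Prop :=
  ∃ a : Fin 6 → X, (∀ i j, (∃ h : X ≃ₜ X, h (a i) = a j) → i = j) ∧
    ∀ x : X, ∃ i, ∃ h : X ≃ₜ X, h (a i) = x

open Pool.Agent.H.MP_56c207_gt Pool.Agent.H.MP_211c6f_gt Pool.Agent.H.MP_2a55c9_gt in
theorem result :
    ∃ (F G : Type) (_ : MetricSpace F) (_ : MetricSpace G) (s : F) (t : G),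
      SmoothFan F s ∧ SmoothFan G t ∧ SixOrbits F ∧ SixOrbits G ∧ IsEmpty (F ≃ₜ G) := by
  obtain ⟨p, hp⟩ := exists_three (κ := Bool)
  obtain ⟨q, hq⟩ := exists_three (κ := Unit)
  exact ⟨Phi Bool, Phi Unit,
    TopologicalSpace.metrizableSpaceMetric _, TopologicalSpace.metrizableSpaceMetric _, _, _,
    smoothFan cone p hp, smoothFan cone q hq,
    ⟨rp true, distinct true, cover true⟩, ⟨rp (), distinct (), cover ()⟩,
    ⟨not_homeo⟩⟩

end Pool.Agent.Results.MP_2a55c9_gt.TwoFans
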